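import Pool.Agent.Helpers.Lag4

set_option autoImplicit false

open MeasureTheory

namespace Pool.Agent.Results.MP_58c014_an.Monotone

/-- The weight `P(x) = exp(-(x_1 + ... + x_n)) * prod_{k < j} (x_j - x_k)^2`
(for `n = 1` the product is empty and `P(x) = exp(-x_1)`). -/
noncomputable def P (n : ℕ) (x : Fin n → ℝ) : ℝ :=
  Real.exp (-∑ j, x j) * ∏ k : Fin n, ∏ j ∈ Finset.Ioi k, (x j - x k) ^ 2

/-- `F(t)`, the integral over `[0,∞)^n` of `P(x) * prod_j (x_j + t)^(-1/2)`. -/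
noncomputable def F (n : ℕ) (t : ℝ) : ℝ :=
  ∫ x in {x : Fin n → ℝ | ∀ j, 0 ≤ x j}, P n x * ∏ j, (x j + t) ^ (-(1 / 2) : ℝ)

/-- `G(t)`, the integral over `[0,∞)^n` of `P(x) * prod_j (x_j + t)^(1/2)`. -/
noncomputable def G (n : ℕ) (t : ℝ) : ℝ :=
  ∫ x in {x : Fin n → ℝ | ∀ j, 0 ≤ x j}, P n x * ∏ j, (x j + t) ^ (1 / 2 : ℝ)

/-- `H(t) = 2 d/dt {F(t) G(t)}`. -/
noncomputable def H (n : ℕ) (t : ℝ) : ℝ := 2 * deriv (fun s => F n s * G n s) t

/-- The double integral of `P(x) P(y) sum_j (1/(x_j+t) - 1/(y_j+t)) prod_j ((x_j+t)/(y_j+t))^(1/2)`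
over `x, y` in `[0,∞)^n`. -/
noncomputable def HInt (n : ℕ) (t : ℝ) : ℝ :=
  ∫ x in {x : Fin n → ℝ | ∀ j, 0 ≤ x j}, ∫ y in {y : Fin n → ℝ | ∀ j, 0 ≤ y j},
    P n x * P n y * (∑ j, (1 / (x j + t) - 1 / (y j + t))) *
      ∏ j, ((x j + t) / (y j + t)) ^ (1 / 2 : ℝ)

/-- For every `n ≥ 1`, `F G` is strictly decreasing on `[0,∞)`, and for every `t > 0` it is
differentiable at `t` with `H(t) < 0`, where `H(t)` is also given by the double integral. -/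
theorem result (n : ℕ) (hn : 1 ≤ n) :
    StrictAntiOn (fun t => F n t * G n t) (Set.Ici 0) ∧
    ∀ t : ℝ, 0 < t → DifferentiableAt ℝ (fun s => F n s * G n s) t ∧ H n t < 0 ∧
      H n t = HInt n t := by
  obtain ⟨h1, h2⟩ := FourFun.main_lag (n := n) hn
  refine ⟨h1, fun t ht => ?_⟩
  obtain ⟨d, hd, hd0, hd2⟩ := h2 t ht
  have h3 : HInt n t = 2 * d := (FourFun.double_int (n := n) ht).trans hd2.symm
  have hd' : HasDerivAt (fun s => F n s * G n s) d t := hd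
  have h4 : H n t = 2 * d := by rw [H, hd'.deriv]
  exact ⟨hd'.differentiableAt, by rw [h4]; linarith, by rw [h4, h3]⟩

end Pool.Agent.Results.MP_58c014_an.Monotone
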